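import Pool.Agent.E8helper52.OR.Final

/-!
# Oscillatory asymptotic of the orthorecursive coefficients of unity

We prove `c_n = 2 Re (κ n^(-1-ρ₁)) + O(n^(-5/2))` with `κ ≠ 0`, where `ρ₁` is the first zero of `g*`
in the right half plane; its real part is below `3/2`.
-/

open Filter Topology Asymptotics
open scoped ComplexConjugate

namespace Pool.Agent.Results.MP_f2798c_nt.AsymptoticH52

/-- `g*(z) = 2 z Σ_{j ≥ 0} (-1)^j / (z - j)`, with consecutive terms grouped in pairs (so that the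
series converges absolutely). The first part of `result` says that the ungrouped partial sums
converge to it at every `z` which is not one of the poles `0, 1, 2, ...`. -/
noncomputable def gstar (z : ℂ) : ℂ :=
  2 * z * ∑' i : ℕ, (1 / (z - 2 * i) - 1 / (z - (2 * i + 1)))

/-- `z` is a zero of the meromorphic function `g*`: it is not one of the points `0, 1, 2, ...`
and `g*` vanishes there. -/
def IsZero (z : ℂ) : Prop := (∀ j : ℕ, z ≠ j) ∧ gstar z = 0

/-- `ρ` is the zero of `g*` in the upper half plane with smallest positive real part. -/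
def IsFirstZero (ρ : ℂ) : Prop :=
  IsZero ρ ∧ 0 < ρ.re ∧ 0 < ρ.im ∧ ∀ z : ℂ, IsZero z → 0 < z.re → ρ.re ≤ z.re

/-- the defining relations of the coefficients: `c_0 = 1` and `Σ_{k=0}^N c_k/(N+k+1) = 0`
for `N ≥ 1`. -/
def IsCoeff (c : ℕ → ℚ) : Prop :=
  c 0 = 1 ∧ ∀ N : ℕ, 1 ≤ N → ∑ k ∈ Finset.range (N + 1), c k / ((N : ℚ) + k + 1) = 0

lemma gstar_eq (z : ℂ) : gstar z = 2 * z * E8helper52.OR.B z := rfl

lemma gstar_tendsto (z : ℂ) :
    Tendsto (fun N : ℕ => 2 * z * ∑ j ∈ Finset.range N, (-1 : ℂ) ^ j / (z - j)) atTop (𝓝 (gstar z)) :=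
  (E8helper52.OR.tendsto_partial z).const_mul (2 * z)

/-- existence and uniqueness of the coefficients -/
lemma exists_coeff : ∃! c : ℕ → ℚ, IsCoeff c := by
  classical
  let nxt : (N : ℕ) → ((m : ℕ) → m < N → ℚ) → ℚ := fun N f =>
    if N = 0 then 1 else -((N : ℚ) + N + 1) * ∑ k ∈ Finset.range N, (if h : k < N then f k h else 0) / ((N : ℚ) + k + 1)
  let c : ℕ → ℚ := fun n => Nat.strongRecOn n nxt
  have hc : ∀ N, c N = nxt N (fun m _ => c m) := fun N => Nat.strongRecOn_eq _ _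
  have hc0 : c 0 = 1 := by rw [hc]; simp [nxt]
  have hcN : ∀ N, 1 ≤ N → c N = -((N : ℚ) + N + 1) * ∑ k ∈ Finset.range N, c k / ((N : ℚ) + k + 1) := by
    intro N hN
    rw [hc]
    simp only [nxt]
    rw [if_neg (by omega)]
    congr 1
    apply Finset.sum_congr rfl
    intro k hk
    rw [dif_pos (Finset.mem_range.1 hk)]
  refine ⟨c, ⟨hc0, fun N hN => ?_⟩, fun d hd => ?_⟩
  · rw [Finset.sum_range_succ, hcN N hN]
    have h0 : ((N : ℚ) + N + 1) ≠ 0 := by positivity
    generalize ∑ k ∈ Finset.range N, c k / ((N : ℚ) + k + 1) = X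
    field_simp
    ring
  · ext n
    induction n using Nat.strong_induction_on with
    | _ n ih =>
      rcases Nat.eq_zero_or_pos n with hn | hn
      · subst hn; rw [hd.1, hc0]
      · have h1 := hd.2 n hn
        rw [Finset.sum_range_succ] at h1
        have e : ∑ k ∈ Finset.range n, d k / ((n : ℚ) + k + 1) = ∑ k ∈ Finset.range n, c k / ((n : ℚ) + k + 1) :=
          Finset.sum_congr rfl (fun k hk => by rw [ih k (Finset.mem_range.1 hk)])
        rw [e] at h1
        rw [hcN n hn]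
        have h0 : ((n : ℚ) + n + 1) ≠ 0 := by positivity
        field_simp at h1
        linear_combination h1

/-- Every zero with `0 < Re z ≤ 3/2` comes from a zero of `D`. -/
lemma zero_to_D {z : ℂ} (hz : IsZero z) (hre : 0 < z.re) : E8helper52.OR.D (1 + 2 * z) = 0 := by
  have hzc : z ∈ Complex.integerComplement := by
    rintro ⟨m, hm⟩
    have h1 : (0 : ℝ) < m := by
      have : z.re = m := by rw [← hm]; simp
      rwa [this] at hre
    have h2 : (0 : ℤ) < m := by exact_mod_cast h1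
    apply hz.1 m.toNat
    rw [← hm]
    have h5 := congrArg (fun t : ℤ => (t : ℂ)) (Int.toNat_of_nonneg h2.le)
    simp only [Int.cast_natCast] at h5
    exact h5.symm
  rw [E8helper52.OR.D_eq hzc (by linarith)]
  have hz0 : (2 * z) ≠ 0 := by
    have : z ≠ 0 := by
      have := hz.1 0
      simpa using this
    simpa using this
  have h1 := hz.2
  rw [gstar_eq] at h1
  rw [(mul_eq_zero.1 h1).resolve_left hz0, mul_zero]

lemma D_to_zero {S : ℂ} (h3 : 3 < S.re) (h4 : S.re < 4) (hD : E8helper52.OR.D S = 0) : IsZero ((S - 1) / 2) := by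
  have hre : ((S - 1) / 2).re = (S.re - 1) / 2 := by
    rw [show (S - 1) / 2 = (((1 / 2 : ℝ)) : ℂ) * (S - 1) by push_cast; ring, Complex.re_ofReal_mul]
    simp; ring
  have hzc : (S - 1) / 2 ∈ Complex.integerComplement := by
    rintro ⟨m, hm⟩
    have h1 : (S.re - 1) / 2 = m := by rw [← hre, ← hm]; simp
    have h2 : (1 : ℝ) < m := by rw [← h1]; linarith
    have h5 : (m : ℝ) < 2 := by rw [← h1]; linarith
    have h6 : (1 : ℤ) < m := by exact_mod_cast h2
    have h7 : m < (2 : ℤ) := by exact_mod_cast h5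
    omega
  refine ⟨fun j hj => hzc ⟨j, by rw [hj]; simp⟩, ?_⟩
  have h1 := E8helper52.OR.D_eq hzc (by rw [hre]; linarith)
  rw [show 1 + 2 * ((S - 1) / 2) = S by ring, hD] at h1
  have h2 := (mul_eq_zero.1 h1.symm).resolve_left (sin_pi_mul_ne_zero hzc)
  rw [gstar_eq, h2, mul_zero]

theorem result :
    (∀ z : ℂ, (∀ j : ℕ, z ≠ j) →
      Tendsto (fun N : ℕ => 2 * z * ∑ j ∈ Finset.range N, (-1 : ℂ) ^ j / (z - j)) atTop (𝓝 (gstar z))) ∧
    (∃! c : ℕ → ℚ, IsCoeff c) ∧
    (∃! ρ : ℂ, IsFirstZero ρ) ∧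
    ∀ (c : ℕ → ℚ) (ρ : ℂ), IsCoeff c → IsFirstZero ρ →
      ρ.re < 3 / 2 ∧ ∃ κ : ℂ, κ ≠ 0 ∧
        (fun n : ℕ => (c n : ℝ) - 2 * (κ * (n : ℂ) ^ (-1 - ρ)).re) =O[atTop]
          (fun n : ℕ => (n : ℝ) ^ (-1 - (3 / 2 : ℝ))) := by
  obtain ⟨S₁, h3, h4, hi, hD, huniq⟩ := E8helper52.OR.exists_zero
  have hre : ((S₁ - 1) / 2).re = (S₁.re - 1) / 2 := by
    rw [show (S₁ - 1) / 2 = (((1 / 2 : ℝ)) : ℂ) * (S₁ - 1) by push_cast; ring, Complex.re_ofReal_mul]
    simp; ring
  have him : ((S₁ - 1) / 2).im = S₁.im / 2 := by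
    rw [show (S₁ - 1) / 2 = (((1 / 2 : ℝ)) : ℂ) * (S₁ - 1) by push_cast; ring, Complex.im_ofReal_mul]
    simp; ring
  have hzero := D_to_zero h3 h4 hD
  -- location of the zeros
  have hloc : ∀ z : ℂ, IsZero z → 0 < z.re → z.re ≤ 3 / 2 → z = (S₁ - 1) / 2 ∨ z = conj ((S₁ - 1) / 2) := by
    intro z hz h0 h1
    have h2 := zero_to_D hz h0
    rcases huniq (1 + 2 * z) (by simp; linarith) (by simp; linarith) h2 with h | h
    · left; rw [← h]; ring
    · right
      have : z = (conj S₁ - 1) / 2 := by rw [← h]; ring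
      rw [this, map_div₀, map_sub, map_one, map_ofNat]
  have hfirst : IsFirstZero ((S₁ - 1) / 2) := by
    refine ⟨hzero, by rw [hre]; linarith, by rw [him]; linarith, fun z hz h0 => ?_⟩
    by_cases h1 : z.re ≤ 3 / 2
    · rcases hloc z hz h0 h1 with h | h
      · rw [h]
      · rw [h, Complex.conj_re]
    · push Not at h1
      rw [hre]; linarith
  have huni : ∀ ρ : ℂ, IsFirstZero ρ → ρ = (S₁ - 1) / 2 := by
    intro ρ hρ
    have h1 := hρ.2.2.2 _ hzero (by rw [hre]; linarith)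
    rcases hloc ρ hρ.1 hρ.2.1 (by rw [hre] at h1; linarith) with h | h
    · exact h
    · exfalso
      have h2 := hρ.2.2.1
      rw [h, Complex.conj_im, him] at h2
      linarith
  refine ⟨fun z _ => gstar_tendsto z, exists_coeff, ⟨_, hfirst, huni⟩, fun c ρ hc hρ => ?_⟩
  have hρe := huni ρ hρ
  subst hρe
  refine ⟨by rw [hre]; linarith, ?_⟩
  obtain ⟨κ, hκ, C, hC⟩ := E8helper52.OR.ee_asymp h3 h4 hi hD huniq
  refine ⟨κ, hκ, ?_⟩
  have hce : ∀ n, (((c n : ℚ) : ℝ) : ℂ) = E8helper52.OR.ee n := by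
    apply E8helper52.OR.c_eq_ee (c := fun n => ((c n : ℚ) : ℝ))
    · simp [hc.1]
    · intro N hN
      have := congrArg (fun x : ℚ => (x : ℝ)) (hc.2 N hN)
      simpa using this
  refine IsBigO.of_bound C ?_
  filter_upwards [eventually_ge_atTop 2] with n hn
  have h1 := hC n hn
  rw [← hce n, Complex.ofReal_re] at h1
  refine h1.trans (le_of_eq ?_)
  have : (0 : ℝ) ≤ (n : ℝ) ^ (-1 - (3 / 2 : ℝ)) := by positivity
  rw [Real.norm_eq_abs, abs_of_nonneg this]

end Pool.Agent.Results.MP_f2798c_nt.AsymptoticH52
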